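import Pool.Agent.K1H42.HP.Stm

/-!
# HP-G: the fourth moment comparison `S_FOURTH`
-/

set_option autoImplicit false

namespace Pool.Agent.K1H68.HP

open Module Finset
open Pool.Agent.K1H42.HP

section
variable {F V : Type} [Field F] [AddCommGroup V] [Module F V] [Finite V]

lemma fr_sup_eq {a b : Submodule F V} (ha : finrank F a = 1) (hb : finrank F b = 1) (hab : a ≠ b) :
    finrank F (a ⊔ b : Submodule F V) = 2 := by
  have h1 := Submodule.finrank_add_le_finrank_add_finrank a b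
  have h2 : ¬ finrank F (a ⊔ b : Submodule F V) ≤ 1 := by
    intro h
    have h3 : a = a ⊔ b := Submodule.eq_of_le_of_finrank_le le_sup_left (by rw [ha]; exact h)
    have h4 : b = a ⊔ b := Submodule.eq_of_le_of_finrank_le le_sup_right (by rw [hb]; exact h)
    exact hab (h3.trans h4.symm)
  omega

/-- rank of the four points -/
noncomputable def rk (a b x y : Submodule F V) : ℕ := finrank F (a ⊔ b ⊔ x ⊔ y : Submodule F V)

lemma rk_le {a b x y : Submodule F V} (ha : finrank F a = 1) (hb : finrank F b = 1)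
    (hx : finrank F x = 1) (hy : finrank F y = 1) : rk a b x y ≤ 4 := by
  have h1 := Submodule.finrank_add_le_finrank_add_finrank a b
  have h2 := Submodule.finrank_add_le_finrank_add_finrank (a ⊔ b) x
  have h3 := Submodule.finrank_add_le_finrank_add_finrank (a ⊔ b ⊔ x) y
  unfold rk
  omega

lemma rk_pos {a b x y : Submodule F V} (ha : finrank F a = 1) : 1 ≤ rk a b x y := by
  have h : a ≤ a ⊔ b ⊔ x ⊔ y := le_sup_of_le_left (le_sup_of_le_left le_sup_left)
  have := Submodule.finrank_mono h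
  unfold rk
  omega

lemma rk_one {a b x y : Submodule F V} (ha : finrank F a = 1) (hb : finrank F b = 1)
    (hx : finrank F x = 1) (hy : finrank F y = 1) :
    rk a b x y = 1 ↔ b = a ∧ x = a ∧ y = a := by
  constructor
  · intro h
    unfold rk at h
    have h1 : a = a ⊔ b ⊔ x ⊔ y := Submodule.eq_of_le_of_finrank_le
      (le_sup_of_le_left (le_sup_of_le_left le_sup_left)) (by omega)
    have h2 : b = a ⊔ b ⊔ x ⊔ y := Submodule.eq_of_le_of_finrank_le
      (le_sup_of_le_left (le_sup_of_le_left le_sup_right)) (by omega)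
    have h3 : x = a ⊔ b ⊔ x ⊔ y := Submodule.eq_of_le_of_finrank_le
      (le_sup_of_le_left le_sup_right) (by omega)
    have h4 : y = a ⊔ b ⊔ x ⊔ y := Submodule.eq_of_le_of_finrank_le le_sup_right (by omega)
    exact ⟨h2.trans h1.symm, h3.trans h1.symm, h4.trans h1.symm⟩
  · rintro ⟨h1, h2, h3⟩
    have h4 : a ⊔ b ⊔ x ⊔ y = a := by rw [h1, h2, h3]; simp only [sup_idem]
    unfold rk
    rw [h4]
    exact ha

lemma line_eq {a b S : Submodule F V} (ha : finrank F a = 1) (hb : finrank F b = 1) (hab : a ≠ b)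
    (haS : a ≤ S) (hbS : b ≤ S) (hS : finrank F S = 2) : a ⊔ b = S :=
  Submodule.eq_of_le_of_finrank_le (sup_le haS hbS) (by rw [hS, fr_sup_eq ha hb hab])

open Classical in
/-- the indicator of: `a ≠ b`, `x, y` on the line `a ⊔ b` -/
noncomputable def ind (a b x y : Submodule F V) : ℝ := if a ≠ b ∧ x ≤ a ⊔ b ∧ y ≤ a ⊔ b then 1 else 0

omit [Finite V] in
lemma ind_nonneg (a b x y : Submodule F V) : 0 ≤ ind a b x y := by
  unfold ind; split_ifs <;> norm_num

open Classical in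
lemma rk_two {a b x y : Submodule F V} (ha : finrank F a = 1) (hb : finrank F b = 1)
    (hx : finrank F x = 1) (hy : finrank F y = 1) :
    (if rk a b x y = 2 then (1 : ℝ) else 0) ≤ ind a b x y + ind a x b y + ind a y b x := by
  split_ifs with h
  · unfold rk at h
    have hae : a ≤ a ⊔ b ⊔ x ⊔ y := le_sup_of_le_left (le_sup_of_le_left le_sup_left)
    have hbe : b ≤ a ⊔ b ⊔ x ⊔ y := le_sup_of_le_left (le_sup_of_le_left le_sup_right)
    have hxe : x ≤ a ⊔ b ⊔ x ⊔ y := le_sup_of_le_left le_sup_right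
    have hye : y ≤ a ⊔ b ⊔ x ⊔ y := le_sup_right
    by_cases h1 : a = b
    · by_cases h2 : a = x
      · by_cases h3 : a = y
        · exfalso
          have := (rk_one ha hb hx hy).2 ⟨h1.symm, h2.symm, h3.symm⟩
          unfold rk at this
          omega
        · have h4 : ind a y b x = 1 := by
            have := line_eq ha hy h3 hae hye h
            unfold ind
            rw [if_pos]
            rw [this]
            exact ⟨h3, hbe, hxe⟩
          have := ind_nonneg a b x y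
          have := ind_nonneg a x b y
          linarith
      · have h4 : ind a x b y = 1 := by
          have := line_eq ha hx h2 hae hxe h
          unfold ind
          rw [if_pos]
          rw [this]
          exact ⟨h2, hbe, hye⟩
        have := ind_nonneg a b x y
        have := ind_nonneg a y b x
        linarith
    · have h4 : ind a b x y = 1 := by
        have := line_eq ha hb h1 hae hbe h
        unfold ind
        rw [if_pos]
        rw [this]
        exact ⟨h1, hxe, hye⟩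
      have := ind_nonneg a x b y
      have := ind_nonneg a y b x
      linarith
  · have := ind_nonneg a b x y
    have := ind_nonneg a x b y
    have := ind_nonneg a y b x
    linarith

/-- the four fold sums -/
noncomputable def TT (c : Submodule F V → ℝ) (Φ : Submodule F V → Submodule F V → Submodule F V →
    Submodule F V → ℝ) : ℝ :=
  ∑ a ∈ Gr F V 1, ∑ b ∈ Gr F V 1, ∑ x ∈ Gr F V 1, ∑ y ∈ Gr F V 1,
    c a * (c b * (c x * c y)) * Φ a b x y

lemma TT_congr (c : Submodule F V → ℝ) {Φ Ψ : Submodule F V → Submodule F V → Submodule F V →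
    Submodule F V → ℝ} (h : ∀ a b x y : Submodule F V, finrank F a = 1 → finrank F b = 1 →
      finrank F x = 1 → finrank F y = 1 → Φ a b x y = Ψ a b x y) : TT c Φ = TT c Ψ := by
  unfold TT
  refine Finset.sum_congr rfl fun a ha => Finset.sum_congr rfl fun b hb =>
    Finset.sum_congr rfl fun x hx => Finset.sum_congr rfl fun y hy => ?_
  rw [mem_Gr] at ha hb hx hy
  rw [h a b x y ha hb hx hy]

lemma TT_add (c : Submodule F V → ℝ) (Φ Ψ : Submodule F V → Submodule F V → Submodule F V →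
    Submodule F V → ℝ) : TT c (fun a b x y => Φ a b x y + Ψ a b x y) = TT c Φ + TT c Ψ := by
  unfold TT
  simp only [← Finset.sum_add_distrib, mul_add]

lemma TT_mul (c : Submodule F V → ℝ) (t : ℝ) (Φ : Submodule F V → Submodule F V → Submodule F V →
    Submodule F V → ℝ) : TT c (fun a b x y => t * Φ a b x y) = t * TT c Φ := by
  unfold TT
  simp only [Finset.mul_sum]
  refine Finset.sum_congr rfl fun a ha => Finset.sum_congr rfl fun b hb =>
    Finset.sum_congr rfl fun x hx => Finset.sum_congr rfl fun y hy => ?_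
  ring

omit [Finite V] in
lemma pow_four (X : Finset (Submodule F V)) (f : Submodule F V → ℝ) :
    (∑ P ∈ X, f P) ^ 4 = ∑ a ∈ X, ∑ b ∈ X, ∑ x ∈ X, ∑ y ∈ X, f a * (f b * (f x * f y)) := by
  simp only [← Finset.mul_sum, ← Finset.sum_mul]
  ring

lemma TT_one (c : Submodule F V → ℝ) (h : ∑ P ∈ Gr F V 1, c P = 0) : TT c (fun _ _ _ _ => 1) = 0 := by
  unfold TT
  simp only [mul_one]
  rw [← pow_four, h]
  norm_num

open Classical in
lemma g_eq (c : Submodule F V → ℝ) (A : Submodule F V) :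
    ∑ P ∈ pts A, c P = ∑ P ∈ Gr F V 1, if P ≤ A then c P else 0 := by
  rw [pts, Finset.sum_filter]

open Classical in
/-- Step A -/
lemma fourth_eq (hC : S_COUNT) [Fintype F] {q n m : ℕ} (hq : Fintype.card F = q)
    (hn : finrank F V = n) (hm : m ≤ n) (hm4 : 4 ≤ m) (c : Submodule F V → ℝ) :
    ∑ A ∈ Gr F V m, (∑ P ∈ pts A, c P) ^ 4 = TT c (fun a b x y => D q n m (rk a b x y)) := by
  have h1 : ∀ A ∈ Gr F V m, (∑ P ∈ pts A, c P) ^ 4 =
      ∑ a ∈ Gr F V 1, ∑ b ∈ Gr F V 1, ∑ x ∈ Gr F V 1, ∑ y ∈ Gr F V 1,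
        c a * (c b * (c x * c y)) * (if a ⊔ b ⊔ x ⊔ y ≤ A then 1 else 0) := by
    intro A _
    rw [g_eq, pow_four]
    refine Finset.sum_congr rfl fun a ha => Finset.sum_congr rfl fun b hb =>
      Finset.sum_congr rfl fun x hx => Finset.sum_congr rfl fun y hy => ?_
    by_cases h1 : a ≤ A <;> by_cases h2 : b ≤ A <;> by_cases h3 : x ≤ A <;> by_cases h4 : y ≤ A <;>
      simp [h1, h2, h3, h4, sup_le_iff]
  rw [Finset.sum_congr rfl h1, Finset.sum_comm]
  unfold TT
  refine Finset.sum_congr rfl fun a ha => ?_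
  rw [Finset.sum_comm]
  refine Finset.sum_congr rfl fun b hb => ?_
  rw [Finset.sum_comm]
  refine Finset.sum_congr rfl fun x hx => ?_
  rw [Finset.sum_comm]
  refine Finset.sum_congr rfl fun y hy => ?_
  rw [mem_Gr] at ha hb hx hy
  rw [← Finset.mul_sum]
  congr 1
  have h2 := hC F V q n m hq hn hm (a ⊔ b ⊔ x ⊔ y) ((rk_le ha hb hx hy).trans hm4)
  refine Eq.trans ?_ h2
  rw [dg, above, Finset.card_filter]
  push_cast
  rfl

open Classical in
/-- Step B -/
lemma second_eq (hC : S_COUNT) [Fintype F] {q n m : ℕ} (hq : Fintype.card F = q)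
    (hn : finrank F V = n) (hm : m ≤ n) (hm4 : 2 ≤ m) (c : Submodule F V → ℝ)
    (h0 : ∑ P ∈ Gr F V 1, c P = 0) :
    ∑ A ∈ Gr F V m, (∑ P ∈ pts A, c P) ^ 2 =
      (D q n m 1 - D q n m 2) * ∑ P ∈ Gr F V 1, c P ^ 2 := by
  have h1 : ∀ A ∈ Gr F V m, (∑ P ∈ pts A, c P) ^ 2 =
      ∑ a ∈ Gr F V 1, ∑ b ∈ Gr F V 1,
        c a * c b * (if a ⊔ b ≤ A then 1 else 0) := by
    intro A _
    rw [g_eq, sq, Finset.sum_mul_sum]
    refine Finset.sum_congr rfl fun a ha => Finset.sum_congr rfl fun b hb => ?_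
    by_cases h1 : a ≤ A <;> by_cases h2 : b ≤ A <;>
      simp [h1, h2, sup_le_iff]
  rw [Finset.sum_congr rfl h1, Finset.sum_comm]
  have h3 : ∀ a ∈ Gr F V 1, ∑ A ∈ Gr F V m, ∑ b ∈ Gr F V 1,
        c a * c b * (if a ⊔ b ≤ A then 1 else 0) =
      c a * (D q n m 2 * ∑ b ∈ Gr F V 1, c b) + (D q n m 1 - D q n m 2) * c a ^ 2 := by
    intro a ha
    rw [Finset.sum_comm]
    have h4 : ∀ b ∈ Gr F V 1, ∑ A ∈ Gr F V m, c a * c b * (if a ⊔ b ≤ A then (1 : ℝ) else 0) =
        c a * (D q n m 2 * c b) + (if b = a then (D q n m 1 - D q n m 2) * c a ^ 2 else 0) := by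
      intro b hb
      rw [mem_Gr] at ha hb
      rw [← Finset.mul_sum]
      have h5 : ∑ A ∈ Gr F V m, (if a ⊔ b ≤ A then (1 : ℝ) else 0) = dg (Gr F V m) (a ⊔ b) := by
        rw [dg, above, Finset.card_filter]
        push_cast
        rfl
      rw [h5]
      have h6 := Submodule.finrank_add_le_finrank_add_finrank a b
      rw [hC F V q n m hq hn hm (a ⊔ b) (by omega)]
      split_ifs with hba
      · subst hba
        rw [sup_idem, ha]; ring
      · rw [fr_sup_eq ha hb (fun h => hba h.symm)]; ring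
    rw [Finset.sum_congr rfl h4, Finset.sum_add_distrib, ← Finset.mul_sum, ← Finset.mul_sum,
      Finset.sum_ite_eq' (Gr F V 1) a, if_pos ha]
  rw [Finset.sum_congr rfl h3, h0, mul_zero]
  simp only [mul_zero, zero_add]
  rw [← Finset.mul_sum]

open Classical in
/-- Step E -/
lemma TT_rank_one (c : Submodule F V → ℝ) {ζ : ℝ} (hζ : ∀ P ∈ Gr F V 1, |c P| ≤ ζ) :
    0 ≤ TT c (fun a b x y => if rk a b x y = 1 then 1 else 0) ∧
    TT c (fun a b x y => if rk a b x y = 1 then 1 else 0) ≤ ζ ^ 2 * ∑ P ∈ Gr F V 1, c P ^ 2 := by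
  have h1 : TT c (fun a b x y => if rk a b x y = 1 then 1 else 0) = ∑ a ∈ Gr F V 1, c a ^ 4 := by
    unfold TT
    refine Finset.sum_congr rfl fun a ha => ?_
    have h2 : ∀ b ∈ Gr F V 1, ∀ x ∈ Gr F V 1, ∀ y ∈ Gr F V 1,
        c a * (c b * (c x * c y)) * (if rk a b x y = 1 then (1 : ℝ) else 0) =
        (if b = a then (if x = a then (if y = a then c a ^ 4 else 0) else 0) else 0) := by
      intro b hb x hx y hy
      have ha' := mem_Gr.1 ha
      have hb' := mem_Gr.1 hb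
      have hx' := mem_Gr.1 hx
      have hy' := mem_Gr.1 hy
      have hr := rk_one ha' hb' hx' hy'
      by_cases hall : b = a ∧ x = a ∧ y = a
      · rw [if_pos (hr.2 hall), if_pos hall.1, if_pos hall.2.1, if_pos hall.2.2, hall.1, hall.2.1,
          hall.2.2]
        ring
      · rw [if_neg (fun h => hall (hr.1 h)), mul_zero]
        split_ifs with h1 h2 h3
        · exact absurd ⟨h1, h2, h3⟩ hall
        · rfl
        · rfl
        · rfl
    rw [Finset.sum_congr rfl fun b hb => Finset.sum_congr rfl fun x hx =>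
      Finset.sum_congr rfl fun y hy => h2 b hb x hx y hy]
    have s1 : ∀ b x : Submodule F V, ∑ y ∈ Gr F V 1,
        (if b = a then (if x = a then (if y = a then c a ^ 4 else 0) else 0) else 0) =
        if b = a then (if x = a then c a ^ 4 else 0) else 0 := by
      intro b x
      split_ifs
      · rw [Finset.sum_ite_eq' (Gr F V 1) a, if_pos ha]
      · simp
      · simp
    have s2 : ∀ b : Submodule F V, ∑ x ∈ Gr F V 1, (if b = a then (if x = a then c a ^ 4 else 0) else 0) =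
        if b = a then c a ^ 4 else 0 := by
      intro b
      split_ifs
      · rw [Finset.sum_ite_eq' (Gr F V 1) a, if_pos ha]
      · simp
    simp only [s1, s2]
    rw [Finset.sum_ite_eq' (Gr F V 1) a, if_pos ha]
  rw [h1]
  refine ⟨Finset.sum_nonneg fun a _ => by positivity, ?_⟩
  rw [Finset.mul_sum]
  refine Finset.sum_le_sum fun a ha => ?_
  have h2 := hζ a ha
  have h3 : c a ^ 2 ≤ ζ ^ 2 := by
    rw [← sq_abs (c a)]
    have := abs_nonneg (c a)
    gcongr
  calc c a ^ 4 = c a ^ 2 * c a ^ 2 := by ring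
    _ ≤ ζ ^ 2 * c a ^ 2 := by
      have := sq_nonneg (c a)
      gcongr

open Classical in
lemma ind_sum (hP : S_PTS) [Fintype F] {q : ℕ} (hq : Fintype.card F = q) (c : Submodule F V → ℝ)
    {ζ : ℝ} (hζ : ∀ P ∈ Gr F V 1, |c P| ≤ ζ) :
    ∑ a ∈ Gr F V 1, ∑ b ∈ Gr F V 1, ∑ x ∈ Gr F V 1, ∑ y ∈ Gr F V 1,
      |c a| * (|c b| * (|c x| * |c y|)) * ind a b x y ≤
      ((q : ℝ) + 1) ^ 2 * ζ ^ 2 * (∑ P ∈ Gr F V 1, |c P|) ^ 2 := by
  have h1 : ∀ a ∈ Gr F V 1, ∀ b ∈ Gr F V 1, ∑ x ∈ Gr F V 1, ∑ y ∈ Gr F V 1,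
      |c a| * (|c b| * (|c x| * |c y|)) * ind a b x y ≤
      (|c a| * |c b|) * (((q : ℝ) + 1) ^ 2 * ζ ^ 2) := by
    intro a ha b hb
    by_cases hab : a = b
    · have h2 : ∀ x y, ind a b x y = 0 := by
        intro x y
        unfold ind
        rw [if_neg]
        rintro ⟨h, _⟩
        exact h hab
      simp only [h2, mul_zero, Finset.sum_const_zero]
      have := abs_nonneg (c a)
      have := abs_nonneg (c b)
      positivity
    · have h2 : ∀ x y, |c a| * (|c b| * (|c x| * |c y|)) * ind a b x y =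
          (|c a| * |c b|) * ((if x ≤ a ⊔ b then |c x| else 0) * (if y ≤ a ⊔ b then |c y| else 0)) := by
        intro x y
        unfold ind
        by_cases h3 : x ≤ a ⊔ b <;> by_cases h4 : y ≤ a ⊔ b <;> simp [hab, h3, h4]
        ring
      simp only [h2]
      simp only [← Finset.mul_sum, ← Finset.sum_mul]
      have h5 : ∑ x ∈ Gr F V 1, (if x ≤ a ⊔ b then |c x| else 0) ≤ ((q : ℝ) + 1) * ζ := by
        rw [← Finset.sum_filter]
        have h6 : ∀ x ∈ (Gr F V 1).filter (fun x => x ≤ a ⊔ b), |c x| ≤ ζ := by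
          intro x hx
          exact hζ x (mem_filter.1 hx).1
        refine (Finset.sum_le_card_nsmul _ _ _ h6).trans ?_
        rw [nsmul_eq_mul]
        have h7 := hP F V q hq (a ⊔ b)
        rw [mem_Gr] at ha hb
        rw [fr_sup_eq ha hb hab] at h7
        have h8 : br q 2 = (q : ℝ) + 1 := by
          unfold br
          rw [Finset.sum_range_succ, Finset.sum_range_one]
          ring
        rw [h8] at h7
        unfold pts at h7
        rw [h7]
      have h6 : 0 ≤ ∑ x ∈ Gr F V 1, (if x ≤ a ⊔ b then |c x| else 0) := by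
        refine Finset.sum_nonneg fun x _ => ?_
        split_ifs
        · exact abs_nonneg _
        · exact le_refl _
      have h9 : 0 ≤ |c a| * |c b| := mul_nonneg (abs_nonneg _) (abs_nonneg _)
      refine mul_le_mul_of_nonneg_left ?_ h9
      calc _ ≤ (((q : ℝ) + 1) * ζ) * (((q : ℝ) + 1) * ζ) :=
            mul_le_mul h5 h5 h6 (h6.trans h5)
        _ = _ := by ring
  calc _ ≤ ∑ a ∈ Gr F V 1, ∑ b ∈ Gr F V 1, (|c a| * |c b|) * (((q : ℝ) + 1) ^ 2 * ζ ^ 2) :=
        Finset.sum_le_sum fun a ha => Finset.sum_le_sum fun b hb => h1 a ha b hb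
    _ = _ := by
        simp only [← Finset.sum_mul, ← Finset.mul_sum]
        ring

open Classical in
/-- Step F -/
lemma TT_rank_two (hP : S_PTS) [Fintype F] {q : ℕ} (hq : Fintype.card F = q)
    (c : Submodule F V → ℝ) {ζ : ℝ} (hζ : ∀ P ∈ Gr F V 1, |c P| ≤ ζ) :
    |TT c (fun a b x y => if rk a b x y = 2 then 1 else 0)| ≤
      3 * (((q : ℝ) + 1) ^ 2 * ζ ^ 2 * (∑ P ∈ Gr F V 1, |c P|) ^ 2) := by
  have hI := ind_sum (V := V) hP hq c hζ
  set X := Gr F V 1 with hX
  have h1 : |TT c (fun a b x y => if rk a b x y = 2 then 1 else 0)| ≤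
      ∑ a ∈ X, ∑ b ∈ X, ∑ x ∈ X, ∑ y ∈ X,
        (|c a| * (|c b| * (|c x| * |c y|)) * ind a b x y +
        |c a| * (|c b| * (|c x| * |c y|)) * ind a x b y +
        |c a| * (|c b| * (|c x| * |c y|)) * ind a y b x) := by
    unfold TT
    refine (Finset.abs_sum_le_sum_abs _ _).trans (Finset.sum_le_sum fun a ha => ?_)
    refine (Finset.abs_sum_le_sum_abs _ _).trans (Finset.sum_le_sum fun b hb => ?_)
    refine (Finset.abs_sum_le_sum_abs _ _).trans (Finset.sum_le_sum fun x hx => ?_)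
    refine (Finset.abs_sum_le_sum_abs _ _).trans (Finset.sum_le_sum fun y hy => ?_)
    rw [mem_Gr] at ha hb hx hy
    have h2 := rk_two ha hb hx hy
    rw [abs_mul, abs_mul, abs_mul, abs_mul]
    have h3 : |(if rk a b x y = 2 then (1 : ℝ) else 0)| = if rk a b x y = 2 then 1 else 0 := by
      split_ifs <;> simp
    rw [h3, ← mul_add, ← mul_add]
    exact mul_le_mul_of_nonneg_left h2 (by positivity)
  refine h1.trans ?_
  simp only [Finset.sum_add_distrib]
  have h2 : ∑ a ∈ X, ∑ b ∈ X, ∑ x ∈ X, ∑ y ∈ X,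
      |c a| * (|c b| * (|c x| * |c y|)) * ind a x b y =
      ∑ a ∈ X, ∑ b ∈ X, ∑ x ∈ X, ∑ y ∈ X,
      |c a| * (|c b| * (|c x| * |c y|)) * ind a b x y := by
    refine Finset.sum_congr rfl fun a _ => ?_
    rw [Finset.sum_comm]
    refine Finset.sum_congr rfl fun b _ => Finset.sum_congr rfl fun x _ =>
      Finset.sum_congr rfl fun y _ => ?_
    ring
  have h3 : ∑ a ∈ X, ∑ b ∈ X, ∑ x ∈ X, ∑ y ∈ X,
      |c a| * (|c b| * (|c x| * |c y|)) * ind a y b x =
      ∑ a ∈ X, ∑ b ∈ X, ∑ x ∈ X, ∑ y ∈ X,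
      |c a| * (|c b| * (|c x| * |c y|)) * ind a b x y := by
    refine Finset.sum_congr rfl fun a _ => ?_
    have h4 : ∑ b ∈ X, ∑ x ∈ X, ∑ y ∈ X, |c a| * (|c b| * (|c x| * |c y|)) * ind a y b x =
        ∑ b ∈ X, ∑ y ∈ X, ∑ x ∈ X, |c a| * (|c b| * (|c x| * |c y|)) * ind a y b x :=
      Finset.sum_congr rfl fun b _ => Finset.sum_comm
    rw [h4, Finset.sum_comm]
    refine Finset.sum_congr rfl fun b _ => Finset.sum_congr rfl fun x _ =>
      Finset.sum_congr rfl fun y _ => ?_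
    ring
  rw [h2, h3]
  linarith

end

/-- the number of hyperplanes over an `s`-subspace -/
lemma E_eq (hN : S_NUM) {q n : ℕ} (hq : 2 ≤ q) (hn : 2 ≤ n) :
    ∀ j, j ≤ n - 1 → D q n (n - 1) (n - 1 - j) * ((q : ℝ) - 1) = (q : ℝ) ^ (j + 1) - 1 := by
  have h := (hN q n (n - 1) hq (by omega) (by omega)).2.1
  intro j
  induction j with
  | zero =>
    intro _
    simp [D]
  | succ j ih =>
    intro hj
    obtain ⟨s, hs⟩ : ∃ s, n = s + j + 2 := ⟨n - (j + 2), by omega⟩
    have h1 := ih (by omega)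
    have h2 := h s (by omega)
    have e1 : n - 1 - j = s + 1 := by omega
    have e2 : n - 1 - (j + 1) = s := by omega
    rw [e1] at h1
    rw [e2]
    have e3 : n - 1 = s + j + 1 := by omega
    have hq1 : (1 : ℝ) < q := by exact_mod_cast (by omega : 1 < q)
    have hqs : (0 : ℝ) < (q : ℝ) ^ s := by positivity
    have hqj : (1 : ℝ) < (q : ℝ) ^ (j + 1) := one_lt_pow₀ hq1 (by omega)
    have f1 : (q : ℝ) ^ (n - 1) - (q : ℝ) ^ s = (q : ℝ) ^ s * ((q : ℝ) ^ (j + 1) - 1) := by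
      rw [e3, show s + j + 1 = s + (j + 1) by ring, pow_add]; ring
    have f2 : (q : ℝ) ^ n - (q : ℝ) ^ s = (q : ℝ) ^ s * ((q : ℝ) ^ (j + 2) - 1) := by
      rw [hs, show s + j + 2 = s + (j + 2) by ring, pow_add]; ring
    rw [f1, f2] at h2
    have h3 : (D q n (n - 1) s * ((q : ℝ) - 1)) * ((q : ℝ) ^ s * ((q : ℝ) ^ (j + 1) - 1)) =
        ((q : ℝ) ^ (j + 1 + 1) - 1) * ((q : ℝ) ^ s * ((q : ℝ) ^ (j + 1) - 1)) := by
      calc (D q n (n - 1) s * ((q : ℝ) - 1)) * ((q : ℝ) ^ s * ((q : ℝ) ^ (j + 1) - 1))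
          = (D q n (n - 1) s * ((q : ℝ) ^ s * ((q : ℝ) ^ (j + 1) - 1))) * ((q : ℝ) - 1) := by ring
        _ = (D q n (n - 1) (s + 1) * ((q : ℝ) - 1)) * ((q : ℝ) ^ s * ((q : ℝ) ^ (j + 2) - 1)) := by
            rw [← h2]; ring
        _ = _ := by rw [h1]; ring
    exact mul_right_cancel₀ (mul_pos hqs (by linarith)).ne' h3

lemma E_diff (hN : S_NUM) {q n : ℕ} (hq : 2 ≤ q) (hn : 2 ≤ n) {s : ℕ} (hs : s + 1 ≤ n - 1) :
    D q n (n - 1) s - D q n (n - 1) (s + 1) = (q : ℝ) ^ (n - 1 - s) := by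
  have hq1 : (1 : ℝ) < q := by exact_mod_cast (by omega : 1 < q)
  have h1 := E_eq hN hq hn (n - 1 - s) (by omega)
  have h2 := E_eq hN hq hn (n - 1 - (s + 1)) (by omega)
  have e1 : n - 1 - (n - 1 - s) = s := by omega
  have e2 : n - 1 - (n - 1 - (s + 1)) = s + 1 := by omega
  have e3 : n - 1 - (s + 1) + 1 = n - 1 - s := by omega
  rw [e1] at h1
  rw [e2, e3] at h2
  have h3 : (D q n (n - 1) s - D q n (n - 1) (s + 1)) * ((q : ℝ) - 1) =
      (q : ℝ) ^ (n - 1 - s) * ((q : ℝ) - 1) := by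
    rw [sub_mul, h1, h2, pow_succ]; ring
  exact mul_right_cancel₀ (by linarith) h3

theorem t_FOURTH (hC : S_COUNT) (hP : S_PTS) (hN : S_NUM) : S_FOURTH := by
  classical
  intro F _ _ V _ _ _ q n k c ζ G hq hn hnk hk h0 hζ hG
  have hq2 : 2 ≤ q := by rw [← hq]; exact Fintype.one_lt_card
  have hqr : (2 : ℝ) ≤ q := by exact_mod_cast hq2
  obtain ⟨hDpos, hDrec, hDle, -, -, -, -⟩ := hN q n k hq2 (by omega) (by omega)
  set D1 := D q n k 1 with hD1
  set D2 := D q n k 2 with hD2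
  set D3 := D q n k 3 with hD3
  set D4 := D q n k 4 with hD4
  have p1 : 0 < D1 := hDpos 1
  have p2 : 0 < D2 := hDpos 2
  have p3 : 0 < D3 := hDpos 3
  have p4 : 0 < D4 := hDpos 4
  have hbig : ((q : ℝ) + 1) ≤ (q : ℝ) ^ (n - k) := by
    calc ((q : ℝ) + 1) ≤ (q : ℝ) ^ 2 := by nlinarith
      _ ≤ (q : ℝ) ^ (n - k) := pow_le_pow_right₀ (by linarith) (by omega)
  have l43 : D4 ≤ D3 := by
    have := hDle 3 4 (by norm_num) (by omega)
    have h1 : (1 : ℝ) ≤ (q : ℝ) ^ ((4 - 3) * (n - k)) := one_le_pow₀ (by linarith)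
    nlinarith
  have l32 : ((q : ℝ) + 1) * D3 ≤ D2 := by
    have h2 := hDle 2 3 (by norm_num) (by omega)
    have h1 : (q : ℝ) ^ ((3 - 2) * (n - k)) = (q : ℝ) ^ (n - k) := by norm_num
    rw [h1] at h2
    calc ((q : ℝ) + 1) * D3 ≤ (q : ℝ) ^ (n - k) * D3 := by gcongr
      _ ≤ D2 := h2
  -- the hyperplane numbers
  set E := fun s => D q n (n - 1) s with hE
  have d3 : E 3 - E 4 = (q : ℝ) ^ (n - 4) := by
    have := E_diff hN hq2 (by omega : 2 ≤ n) (s := 3) (by omega)
    rw [show n - 1 - 3 = n - 4 by omega] at this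
    exact this
  have d2 : E 2 - E 3 = (q : ℝ) ^ (n - 4) * q := by
    have := E_diff hN hq2 (by omega : 2 ≤ n) (s := 2) (by omega)
    rw [show n - 1 - 2 = (n - 4) + 1 by omega, pow_succ] at this
    exact this
  have d1 : E 1 - E 2 = (q : ℝ) ^ (n - 4) * (q : ℝ) ^ 2 := by
    have := E_diff hN hq2 (by omega : 2 ≤ n) (s := 1) (by omega)
    rw [show n - 1 - 1 = (n - 4) + 2 by omega, pow_add] at this
    exact this
  have hQ : (0 : ℝ) < (q : ℝ) ^ (n - 4) := by positivity
  set Q := (q : ℝ) ^ (n - 4) with hQdef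
  set β := (D3 - D4) / Q with hβ
  have hβQ : β * Q = D3 - D4 := by rw [hβ]; field_simp
  have hβ0 : 0 ≤ β := div_nonneg (by linarith) hQ.le
  set α := D4 - β * E 4 with hα
  set e1 := D1 - α - β * E 1 with he1
  set e2 := D2 - α - β * E 2 with he2
  have v2 : e2 = D2 - (1 + q) * D3 + q * D4 := by
    have : E 2 = E 4 + Q + Q * q := by linarith
    rw [he2, hα, this]
    linear_combination (-(1 : ℝ) - q) * hβQ
  have v1 : e1 = D1 - (1 + q + (q : ℝ) ^ 2) * D3 + (q + (q : ℝ) ^ 2) * D4 := by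
    have : E 1 = E 4 + Q + Q * q + Q * (q : ℝ) ^ 2 := by linarith
    rw [he1, hα, this]
    linear_combination (-(1 : ℝ) - q - (q : ℝ) ^ 2) * hβQ
  have b2 : |e2| ≤ D2 := by
    rw [v2, abs_le]
    constructor
    · nlinarith [mul_pos (by linarith : (0:ℝ) < q) p4]
    · nlinarith
  have b1 : e1 ≤ D1 := by
    rw [v1]
    nlinarith [mul_nonneg (by nlinarith : (0:ℝ) ≤ q + (q:ℝ)^2) (sub_nonneg.2 l43)]
  -- decomposition
  have hdec : ∑ A ∈ Gr F V k, (∑ P ∈ pts A, c P) ^ 4 =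
      β * (∑ H ∈ Gr F V (n - 1), (∑ P ∈ pts H, c P) ^ 4) +
      e1 * TT c (fun a b x y => if rk a b x y = 1 then 1 else 0) +
      e2 * TT c (fun a b x y => if rk a b x y = 2 then 1 else 0) := by
    rw [fourth_eq hC hq hn (by omega) (by omega) c, fourth_eq hC hq hn (by omega) (by omega) c]
    have h1 : TT c (fun a b x y => D q n k (rk a b x y)) =
        TT c (fun a b x y => α * 1 + (β * D q n (n - 1) (rk a b x y) +
          (e1 * (if rk a b x y = 1 then 1 else 0) + e2 * (if rk a b x y = 2 then 1 else 0)))) := by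
      refine TT_congr c fun a b x y ha hb hx hy => ?_
      have r1 := rk_le ha hb hx hy
      have r2 := rk_pos (b := b) (x := x) (y := y) ha
      have key : ∀ r : ℕ, 1 ≤ r → r ≤ 4 → D q n k r = α * 1 + (β * D q n (n - 1) r +
          (e1 * (if r = 1 then 1 else 0) + e2 * (if r = 2 then 1 else 0))) := by
        intro r hr1 hr4
        have hr : r = 1 ∨ r = 2 ∨ r = 3 ∨ r = 4 := by omega
        rcases hr with rfl | rfl | rfl | rfl
        · simp only [if_true, show (1 : ℕ) = 2 ↔ False by norm_num, if_false]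
          show D1 = α * 1 + (β * E 1 + (e1 * 1 + e2 * 0))
          rw [he1]; ring
        · simp only [if_true, show (2 : ℕ) = 1 ↔ False by norm_num, if_false]
          show D2 = α * 1 + (β * E 2 + (e1 * 0 + e2 * 1))
          rw [he2]; ring
        · simp only [show (3 : ℕ) = 1 ↔ False by norm_num, show (3 : ℕ) = 2 ↔ False by norm_num,
            if_false]
          show D3 = α * 1 + (β * E 3 + (e1 * 0 + e2 * 0))
          have : E 3 = E 4 + Q := by linarith
          rw [hα, this]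
          linear_combination -hβQ
        · simp only [show (4 : ℕ) = 1 ↔ False by norm_num, show (4 : ℕ) = 2 ↔ False by norm_num,
            if_false]
          show D4 = α * 1 + (β * E 4 + (e1 * 0 + e2 * 0))
          rw [hα]; ring
      exact key _ r2 r1
    rw [h1, TT_add, TT_add, TT_add, TT_mul, TT_mul, TT_mul, TT_mul, TT_one c h0]
    ring
  have hyp4 : ∑ H ∈ Gr F V (n - 1), (∑ P ∈ pts H, c P) ^ 4 ≤
      G ^ 2 * ((Q * (q : ℝ) ^ 2) * ∑ P ∈ Gr F V 1, c P ^ 2) := by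
    have h2 := second_eq (V := V) hC hq hn (by omega : n - 1 ≤ n) (by omega) c h0
    have h3 : D q n (n - 1) 1 - D q n (n - 1) 2 = Q * (q : ℝ) ^ 2 := d1
    rw [h3] at h2
    rw [← h2, Finset.mul_sum]
    refine Finset.sum_le_sum fun H hH => ?_
    have h4 := hG H hH
    have h5 : (∑ P ∈ pts H, c P) ^ 2 ≤ G ^ 2 := by
      rw [← sq_abs (∑ P ∈ pts H, c P)]
      have := abs_nonneg (∑ P ∈ pts H, c P)
      gcongr
    calc (∑ P ∈ pts H, c P) ^ 4 = (∑ P ∈ pts H, c P) ^ 2 * (∑ P ∈ pts H, c P) ^ 2 := by ring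
      _ ≤ G ^ 2 * (∑ P ∈ pts H, c P) ^ 2 := by
        have := sq_nonneg (∑ P ∈ pts H, c P)
        gcongr
  have hS2 : 0 ≤ ∑ P ∈ Gr F V 1, c P ^ 2 := Finset.sum_nonneg fun P _ => sq_nonneg _
  have t1 : β * (∑ H ∈ Gr F V (n - 1), (∑ P ∈ pts H, c P) ^ 4) ≤
      (q : ℝ) ^ 2 * D3 * G ^ 2 * ∑ P ∈ Gr F V 1, c P ^ 2 := by
    calc β * (∑ H ∈ Gr F V (n - 1), (∑ P ∈ pts H, c P) ^ 4)
        ≤ β * (G ^ 2 * ((Q * (q : ℝ) ^ 2) * ∑ P ∈ Gr F V 1, c P ^ 2)) := by gcongr
      _ = (q : ℝ) ^ 2 * (β * Q) * G ^ 2 * ∑ P ∈ Gr F V 1, c P ^ 2 := by ring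
      _ ≤ (q : ℝ) ^ 2 * D3 * G ^ 2 * ∑ P ∈ Gr F V 1, c P ^ 2 := by
        rw [hβQ]
        gcongr
        linarith
  obtain ⟨r10, r11⟩ := TT_rank_one c hζ
  have t2 : e1 * TT c (fun a b x y => if rk a b x y = 1 then 1 else 0) ≤
      D1 * ζ ^ 2 * ∑ P ∈ Gr F V 1, c P ^ 2 := by
    calc e1 * TT c (fun a b x y => if rk a b x y = 1 then 1 else 0)
        ≤ D1 * TT c (fun a b x y => if rk a b x y = 1 then 1 else 0) := by gcongr
      _ ≤ D1 * (ζ ^ 2 * ∑ P ∈ Gr F V 1, c P ^ 2) := by gcongr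
      _ = _ := by ring
  have r2 := TT_rank_two hP hq c hζ
  have t3 : e2 * TT c (fun a b x y => if rk a b x y = 2 then 1 else 0) ≤
      6 * ((q : ℝ) + 1) ^ 2 * ζ ^ 2 * D2 * (∑ P ∈ Gr F V 1, |c P|) ^ 2 := by
    calc e2 * TT c (fun a b x y => if rk a b x y = 2 then 1 else 0)
        ≤ |e2| * |TT c (fun a b x y => if rk a b x y = 2 then 1 else 0)| := by
          rw [← abs_mul]; exact le_abs_self _
      _ ≤ D2 * (3 * (((q : ℝ) + 1) ^ 2 * ζ ^ 2 * (∑ P ∈ Gr F V 1, |c P|) ^ 2)) := by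
          gcongr
      _ ≤ D2 * (6 * (((q : ℝ) + 1) ^ 2 * ζ ^ 2 * (∑ P ∈ Gr F V 1, |c P|) ^ 2)) := by
          gcongr
          norm_num
      _ = _ := by ring
  rw [hdec]
  linarith

end Pool.Agent.K1H68.HP
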